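import Pool.Agent.Y990.CB.Stm2
import Pool.Agent.Y990.CB.PartC

/-!
Project CB: two distinct clusters are in contact with reasonable probability.
-/

set_option autoImplicit false

open MeasureTheory Set

namespace Pool.Agent.Y448.CB2

open Pool.Agent.W783.PC (pm DepOn Inc)
open Pool.Agent.Y990.CB

noncomputable section

variable {d : ℕ}

theorem qm_site : ∀ d, Qm (siteM d) := by
  intro d ω a' b' e a b c h1 h2 h3 h4 h5 h6
  have m1 : ∀ (x y : Z d) (c : (siteM d).ι), c ∈ (siteM d).nd x y ↔ (c = x ∨ c = y) := by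
    have m0 : ∀ x y c : Z d, c ∈ ({x, y} : Finset (Z d)) ↔ (c = x ∨ c = y) := by
      intro x y c
      rw [Finset.mem_insert, Finset.mem_singleton]
    exact m0
  rw [m1] at h3 h4
  have ha : ω a' = true := h1 a' ((m1 _ _ _).2 (Or.inl rfl))
  have hb : ω b' ≠ true := by
    intro hb
    apply h2
    intro c' hc'
    rw [m1] at hc'
    rcases hc' with hc' | hc'
    · rw [hc']; exact ha
    · rw [hc']; exact hb
  rcases h3 with h3 | h3
  · exfalso
    rw [h3] at h4
    rcases h4 with h4 | h4
    · exact h5 h4.symm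
    · exact h6 h4.symm
  · rw [h3]
    exact Bool.eq_false_iff.2 hb

theorem qm_bond : ∀ d, Qm (bondM d) := by
  intro d ω a' b' e a b c _ h2 h3 _ _ _
  have m1 : ∀ (x y : Z d) (c : (bondM d).ι), c ∈ (bondM d).nd x y ↔ c = s(x, y) := by
    have m0 : ∀ (x y : Z d) (c : Sym2 (Z d)), c ∈ ({s(x, y)} : Finset (Sym2 (Z d))) ↔
        c = s(x, y) := by
      intro x y c
      rw [Finset.mem_singleton]
    exact m0
  rw [m1] at h3
  apply Bool.eq_false_iff.2
  intro hc
  apply h2
  intro c' hc'
  rw [m1] at hc'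
  rw [hc', ← h3]
  exact hc

variable (M : Mod d)

/-- the coordinates of the edges of the box which touch `A` -/
def SA (B : Set (Z d)) (A : Set (Z d)) : Set M.ι :=
  {c | ∃ a' ∈ A, ∃ b' ∈ B, Nb a' b' ∧ c ∈ M.nd a' b'}

open Classical in
/-- the configuration with the coordinates of `SA` closed -/
def wA (B A : Set (Z d)) (ω : M.ι → Bool) : M.ι → Bool :=
  fun c => if c ∈ SA M B A then false else ω c

variable {M}

theorem wA_le {B A : Set (Z d)} {ω : M.ι → Bool} {c : M.ι} (h : wA M B A ω c = true) :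
    ω c = true := by
  unfold wA at h
  split_ifs at h
  exact h

theorem wA_of {B A : Set (Z d)} {ω : M.ι → Bool} {c : M.ι} (h : c ∉ SA M B A) :
    wA M B A ω c = ω c := by
  unfold wA
  rw [if_neg h]

theorem wA_congr {B A : Set (Z d)} {S : Set M.ι} {ω ω' : M.ι → Bool}
    (h : ∀ c ∈ S \ SA M B A, ω c = ω' c) : ∀ c ∈ S, wA M B A ω c = wA M B A ω' c := by
  intro c hc
  by_cases h1 : c ∈ SA M B A
  · unfold wA
    rw [if_pos h1, if_pos h1]
  · rw [wA_of h1, wA_of h1]
    exact h c ⟨hc, h1⟩

theorem wA_mono {B A : Set (Z d)} {ω ω' : M.ι → Bool} (h : ∀ c, ω c = true → ω' c = true) :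
    ∀ c, wA M B A ω c = true → wA M B A ω' c = true := by
  intro c hc
  by_cases h1 : c ∈ SA M B A
  · unfold wA at hc
    rw [if_pos h1] at hc
    exact absurd hc (by simp)
  · rw [wA_of h1] at hc ⊢
    exact h c hc

theorem SA_sub {B A : Set (Z d)} (hA : A ⊆ B) : SA M B A ⊆ In M B := by
  rintro c ⟨a', ha', b', hb', h1, h2⟩
  exact ⟨a', hA ha', b', hb', h1, h2⟩

/-- (1) the event that the cluster is `A` depends on the coordinates touching `A` -/
theorem cl_dep (B A : Set (Z d)) (x : Z d) : DepOn {ω | cl M ω B x = A} (SA M B A) := by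
  have key : ∀ ω ω' : M.ι → Bool, (∀ c ∈ SA M B A, ω c = ω' c) → cl M ω B x = A →
      cl M ω' B x = A := by
    intro ω ω' h hA
    have hx : x ∈ A := by rw [← hA]; exact SimpleGraph.Reachable.refl _
    apply Set.Subset.antisymm
    · rintro z ⟨p⟩
      have k : ∀ (u v : Z d), (G M ω' B).Walk u v → u ∈ A → v ∈ A := by
        intro u v q
        induction q with
        | nil => exact id
        | cons h1 q ih =>
          rename_i u w v
          intro hu
          apply ih
          have h2 : (G M ω B).Adj u w := by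
            refine ⟨h1.1, h1.2.1, h1.2.2.1, fun c hc => ?_⟩
            rw [h c ⟨u, hu, w, h1.2.2.1, h1.1, hc⟩]
            exact h1.2.2.2 c hc
          rw [← hA] at hu ⊢
          exact SimpleGraph.Reachable.trans hu (SimpleGraph.Adj.reachable h2)
      exact k x z p hx
    · intro z hz
      rw [← hA] at hz
      obtain ⟨p⟩ := hz
      have k : ∀ (u v : Z d), (G M ω B).Walk u v → u ∈ A → (G M ω' B).Reachable u v := by
        intro u v q
        induction q with
        | nil => exact fun _ => SimpleGraph.Reachable.refl _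
        | cons h1 q ih =>
          rename_i u w v
          intro hu
          have h2 : (G M ω' B).Adj u w := by
            refine ⟨h1.1, h1.2.1, h1.2.2.1, fun c hc => ?_⟩
            rw [← h c ⟨u, hu, w, h1.2.2.1, h1.1, hc⟩]
            exact h1.2.2.2 c hc
          refine SimpleGraph.Reachable.trans (SimpleGraph.Adj.reachable h2) (ih ?_)
          rw [← hA] at hu ⊢
          exact SimpleGraph.Reachable.trans hu (SimpleGraph.Adj.reachable h1)
      exact k x z p hx
  intro ω ω' h
  exact ⟨key ω ω' h, key ω' ω (fun c hc => (h c hc).symm)⟩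

/-- a vertex of a cluster with at least two elements has an open edge -/
theorem exists_adj {B : Set (Z d)} {ω : M.ι → Bool} {x a' : Z d}
    (h2 : 2 ≤ (cl M ω B x).ncard) (ha : a' ∈ cl M ω B x) : ∃ e, (G M ω B).Adj a' e := by
  have h3 : ∃ z ∈ cl M ω B x, z ≠ a' := by
    by_contra hcon
    push Not at hcon
    have h4 : cl M ω B x ⊆ {a'} := fun z hz => hcon z hz
    have h5 := Set.ncard_le_ncard h4 (Set.finite_singleton a')
    rw [Set.ncard_singleton] at h5
    omega
  obtain ⟨z, hz, hne⟩ := h3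
  have hr : (G M ω B).Reachable a' z :=
    SimpleGraph.Reachable.trans (SimpleGraph.Reachable.symm ha) hz
  obtain ⟨p⟩ := hr
  cases p with
  | nil => exact absurd rfl hne
  | cons h q => exact ⟨_, h⟩

/-- (2) the cluster of `y` is not changed by closing the coordinates touching `A` -/
theorem cl_eq_wA (hQ : Qm M) {B A : Set (Z d)} {ω : M.ι → Bool} {x y : Z d}
    (hA : cl M ω B x = A) (h2 : 2 ≤ A.ncard) (hy : y ∉ A) :
    cl M ω B y = cl M (wA M B A ω) B y := by
  apply Set.Subset.antisymm
  · rintro z ⟨p⟩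
    have k : ∀ (u v : Z d), (G M ω B).Walk u v → u ∉ A → (G M (wA M B A ω) B).Reachable u v := by
      intro u v q
      induction q with
      | nil => exact fun _ => SimpleGraph.Reachable.refl _
      | cons h1 q ih =>
        rename_i u w v
        intro hu
        have hw : w ∉ A := by
          intro hw
          apply hu
          rw [← hA] at hw ⊢
          exact SimpleGraph.Reachable.trans hw (SimpleGraph.Adj.reachable h1.symm)
        refine SimpleGraph.Reachable.trans (SimpleGraph.Adj.reachable ?_) (ih hw)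
        refine ⟨h1.1, h1.2.1, h1.2.2.1, fun c hc => ?_⟩
        have hc1 := h1.2.2.2 c hc
        rw [wA_of, hc1]
        rintro ⟨a', ha', b', hb', h3, h4⟩
        have hau : u ≠ a' := fun h => hu (h ▸ ha')
        have haw : w ≠ a' := fun h => hw (h ▸ ha')
        have hbA : b' ∉ A := by
          rcases M.loc u w a' b' c hc h4 with h | h | h | h
          · exact absurd h.symm hau
          · exact absurd h.symm haw
          · rw [h]; exact hu
          · rw [h]; exact hw
        have haB : ∃ e, (G M ω B).Adj a' e := by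
          apply exists_adj (x := x)
          · rw [hA]; exact h2
          · rw [hA]; exact ha'
        obtain ⟨e, he⟩ := haB
        have hno : ¬ (∀ c' ∈ M.nd a' b', ω c' = true) := by
          intro hall
          apply hbA
          have h5 : (G M ω B).Adj a' b' := ⟨h3, he.2.1, hb', hall⟩
          rw [← hA] at ha' ⊢
          exact SimpleGraph.Reachable.trans ha' (SimpleGraph.Adj.reachable h5)
        have := hQ ω a' b' e u w c he.2.2.2 hno h4 hc hau haw
        rw [hc1] at this
        exact absurd this (by simp)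
    exact k y z p hy
  · exact cl_mono (fun c hc => wA_le hc) (Subset.refl _) y

/-- the event that the cluster of `y` is large after closing -/
def FA (B A : Set (Z d)) (m : ℕ) (y : Z d) : Set (M.ι → Bool) :=
  {ω | m ≤ (cl M (wA M B A ω) B y).ncard}

/-- the contact event after closing -/
def KA (B A D : Set (Z d)) (y : Z d) : Set (M.ι → Bool) :=
  {ω | ∃ a ∈ D, ∃ b ∈ D, ∃ a' ∈ A, ∃ b' ∈ B, Nb a b ∧ Nb a' b' ∧
    (∃ c ∈ M.nd a b, c ∈ M.nd a' b') ∧ a ∈ cl M (wA M B A ω) B y}

theorem FA_dep (B A : Set (Z d)) (m : ℕ) (y : Z d) :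
    DepOn (FA (M := M) B A m y) (In M B \ SA M B A) := by
  intro ω ω' h
  show m ≤ (cl M (wA M B A ω) B y).ncard ↔ m ≤ (cl M (wA M B A ω') B y).ncard
  unfold cl
  rw [graph_congr (wA_congr h)]

theorem KA_dep (B A D : Set (Z d)) (y : Z d) :
    DepOn (KA (M := M) B A D y) (In M B \ SA M B A) := by
  intro ω ω' h
  unfold KA cl
  simp only [mem_ofPred_eq]
  rw [graph_congr (wA_congr h)]

theorem FA_inc {B A : Set (Z d)} (hB : B.Finite) (m : ℕ) {y : Z d} (hy : y ∈ B) :
    Inc (FA (M := M) B A m y) := by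
  intro ω ω' h hω
  refine le_trans hω (Set.ncard_le_ncard (cl_mono (wA_mono h) (Subset.refl _) y) ?_)
  exact hB.subset (cl_subset hy)

theorem KA_inc (B A D : Set (Z d)) (y : Z d) : Inc (KA (M := M) B A D y) := by
  rintro ω ω' h ⟨a, ha, b, hb, a', ha', b', hb', h1, h2, h3, h4⟩
  exact ⟨a, ha, b, hb, a', ha', b', hb', h1, h2, h3, cl_mono (wA_mono h) (Subset.refl _) y h4⟩

/-- (4) a connection inside `D` gives a contact -/
theorem Cn_sub_KA (hN : Nd M) {B A D : Set (Z d)} (hD : D ⊆ B) {x y : Z d} (hx : x ∈ A)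
    (hy : y ∉ A) : Cn M D x y ⊆ KA (M := M) B A D y := by
  intro ω hω
  obtain ⟨p⟩ := (SimpleGraph.Reachable.symm hω : (G M ω D).Reachable y x)
  have k : ∀ (u v : Z d), (G M ω D).Walk u v → v ∈ A → u ∉ A → u ∈ cl M (wA M B A ω) B y →
      ω ∈ KA (M := M) B A D y := by
    intro u v q
    induction q with
    | nil => exact fun h1 h2 _ => absurd h1 h2
    | cons h1 q ih =>
      rename_i u w v
      intro hv hu huy
      by_cases hc : ∃ c ∈ M.nd u w, c ∈ SA M B A
      · obtain ⟨c, hc1, a', ha', b', hb', h3, h4⟩ := hc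
        exact ⟨u, h1.2.1, w, h1.2.2.1, a', ha', b', hb', h1.1, h3, ⟨c, hc1, h4⟩, huy⟩
      · push Not at hc
        apply ih hv
        · intro hw
          obtain ⟨c, hc1⟩ := hN u w
          apply hc c hc1
          refine ⟨w, hw, u, hD h1.2.1, Nb_comm.1 h1.1, ?_⟩
          rw [M.symm]; exact hc1
        · refine SimpleGraph.Reachable.trans huy (SimpleGraph.Adj.reachable ?_)
          refine ⟨h1.1, hD h1.2.1, hD h1.2.2.1, fun c hc1 => ?_⟩
          rw [wA_of (hc c hc1)]
          exact h1.2.2.2 c hc1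
  exact k y x p hx hy (SimpleGraph.Reachable.refl _)

theorem ctc : S_ctc := by
  classical
  intro d M p L m D x y hN hQ hm hD hx hy
  obtain ⟨B, hB⟩ : ∃ B, B = Bo (0 : Z d) L := ⟨_, rfl⟩
  have hBfin : B.Finite := by rw [hB]; exact Bo_finite 0 L
  have hDB : D ⊆ B := by rw [hB]; exact hD
  have hxB : x ∈ B := hDB hx
  have hyB : y ∈ B := hDB hy
  -- the possible clusters
  obtain ⟨T, hT⟩ : ∃ T : Finset (Finset (Z d)),
      T = (Bf (0 : Z d) L).powerset.filter (fun A => m ≤ A.card ∧ y ∉ A ∧ x ∈ A) := ⟨_, rfl⟩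
  have hTm : ∀ A ∈ T, (A : Set (Z d)) ⊆ B ∧ m ≤ A.card ∧ y ∉ A ∧ x ∈ A := by
    intro A hA
    rw [hT, Finset.mem_filter, Finset.mem_powerset] at hA
    refine ⟨?_, hA.2⟩
    rw [hB, ← coe_Bf]
    exact_mod_cast hA.1
  let E : Finset (Z d) → Set (M.ι → Bool) := fun A => {ω | cl M ω B x = (A : Set (Z d))}
  have hdE : ∀ A ∈ T, DepOn (E A) (SA M B A) := fun A _ => cl_dep B A x
  have hInfin : (In M B).Finite := In_fin M hBfin
  have hmeas : ∀ (S : Set (M.ι → Bool)) (W : Set M.ι), W ⊆ In M B → DepOn S W →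
      MeasurableSet S := by
    intro S W hW hS
    have h1 : DepOn S (hInfin.toFinset : Set M.ι) := by
      rw [hInfin.coe_toFinset]; exact dep_mono hS hW
    exact Pool.Agent.W45.PC.s_depmeas _ _ _ h1
  have hmE : ∀ A ∈ T, MeasurableSet (E A) := fun A hA =>
    hmeas _ _ (SA_sub (hTm A hA).1) (hdE A hA)
  have hmF : ∀ A : Finset (Z d), MeasurableSet (FA (M := M) B A m y) := fun A =>
    hmeas _ _ Set.sdiff_subset (FA_dep B A m y)
  have hmK : ∀ A : Finset (Z d), MeasurableSet (KA (M := M) B A D y) := fun A =>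
    hmeas _ _ Set.sdiff_subset (KA_dep B A D y)
  have hdisj : ∀ A ∈ T, ∀ A' ∈ T, A ≠ A' → Disjoint (E A) (E A') := by
    intro A _ A' _ hne
    rw [Set.disjoint_left]
    intro ω h1 h2
    apply hne
    have h3 : cl M ω B x = (A : Set (Z d)) := h1
    have h4 : cl M ω B x = (A' : Set (Z d)) := h2
    rw [h3] at h4
    exact_mod_cast h4
  -- the event `Ev` on the pieces
  have hEv : ∀ ω, ω ∈ Ev M L m x y → ∃ A ∈ T, ω ∈ E A ∧ ω ∈ FA (M := M) B A m y := by
    intro ω hω
    obtain ⟨h1, h2, h3⟩ := hω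
    rw [← hB] at h1 h2 h3
    have hfin : (cl M ω B x).Finite := hBfin.subset (cl_subset hxB)
    have hc : (hfin.toFinset : Set (Z d)) = cl M ω B x := hfin.coe_toFinset
    refine ⟨hfin.toFinset, ?_, hc.symm, ?_⟩
    · rw [hT, Finset.mem_filter, Finset.mem_powerset]
      refine ⟨?_, ?_, ?_, ?_⟩
      · intro z hz
        rw [mem_Bf, ← hB]
        rw [hfin.mem_toFinset] at hz
        exact cl_subset hxB hz
      · rw [← Set.ncard_eq_toFinset_card _ hfin]
        exact h1
      · rw [hfin.mem_toFinset]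
        exact h3
      · rw [hfin.mem_toFinset]
        exact SimpleGraph.Reachable.refl _
    · show m ≤ (cl M (wA M B hfin.toFinset ω) B y).ncard
      rw [hc]
      rw [← cl_eq_wA hQ (x := x) rfl (hm.trans h1) h3]
      exact h2
  have hEvB : ∀ A ∈ T, ∀ ω, ω ∈ E A → ω ∈ FA (M := M) B A m y → ω ∈ Ev M L m x y := by
    intro A hA ω h1 h2
    have h1' : cl M ω B x = (A : Set (Z d)) := h1
    obtain ⟨h3, h4, h5, hxA⟩ := hTm A hA
    have hcard : (A : Set (Z d)).ncard = A.card := Set.ncard_coe_finset A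
    refine ⟨?_, ?_, ?_⟩
    · rw [← hB, h1', hcard]; exact h4
    · rw [← hB, cl_eq_wA hQ h1' (by rw [hcard]; omega) (by exact_mod_cast h5)]
      exact h2
    · rw [← hB, h1']
      exact_mod_cast h5
  have hKt : ∀ A ∈ T, ∀ ω, ω ∈ E A → ω ∈ KA (M := M) B A D y → ω ∈ Kt M L D x y := by
    rintro A hA ω h1 ⟨a, ha, b, hb, a', ha', b', hb', h2, h3, h4, h5⟩
    have h1' : cl M ω B x = (A : Set (Z d)) := h1
    rw [hB] at h1' h5 hb'
    refine ⟨a, ha, b, hb, a', ?_, b', hb', h2, h3, h4, ?_, ?_⟩
    · rw [← hB]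
      exact (hTm A hA).1 ha'
    · exact cl_mono (fun c hc => wA_le hc) (Subset.refl _) y h5
    · rw [h1']; exact ha'
  -- the estimate of one piece
  have hpiece : ∀ A ∈ T, (mu M p).real (E A ∩ FA (M := M) B A m y) * (mu M p).real (Cn M D x y) ≤
      (mu M p).real (E A ∩ (FA (M := M) B A m y ∩ KA (M := M) B A D y)) := by
    intro A hA
    obtain ⟨h3, h4, h5, hxA⟩ := hTm A hA
    have hds : Disjoint (SA M B A) (In M B \ SA M B A) := Set.disjoint_sdiff_right
    have dFK : DepOn (FA (M := M) B A m y ∩ KA (M := M) B A D y) (In M B \ SA M B A) := by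
      intro ω ω' h
      exact and_congr (FA_dep B A m y ω ω' h) (KA_dep B A D y ω ω' h)
    have i1 : (mu M p).real (E A ∩ FA (M := M) B A m y) =
        (mu M p).real (E A) * (mu M p).real (FA (M := M) B A m y) := by
      unfold Measure.real mu
      rw [Pool.Agent.W45.PC.s_indep M.ι (fun _ => p) _ _ _ _ (hdE A hA) (FA_dep B A m y) hds
        (hmE A hA) (hmF A), ENNReal.toReal_mul]
    have i2 : (mu M p).real (E A ∩ (FA (M := M) B A m y ∩ KA (M := M) B A D y)) =
        (mu M p).real (E A) * (mu M p).real (FA (M := M) B A m y ∩ KA (M := M) B A D y) := by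
      unfold Measure.real mu
      rw [Pool.Agent.W45.PC.s_indep M.ι (fun _ => p) _ _ _ _ (hdE A hA) dFK hds
        (hmE A hA) ((hmF A).inter (hmK A)), ENNReal.toReal_mul]
    have i3 : (mu M p).real (FA (M := M) B A m y) * (mu M p).real (KA (M := M) B A D y) ≤
        (mu M p).real (FA (M := M) B A m y ∩ KA (M := M) B A D y) := by
      have hA' : DepOn (FA (M := M) B A m y) (hInfin.toFinset : Set M.ι) := by
        rw [hInfin.coe_toFinset]; exact dep_mono (FA_dep B A m y) Set.sdiff_subset
      have hB' : DepOn (KA (M := M) B A D y) (hInfin.toFinset : Set M.ι) := by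
        rw [hInfin.coe_toFinset]; exact dep_mono (KA_dep B A D y) Set.sdiff_subset
      exact Pool.Agent.W333.PC.s_harris M.ι (fun _ => p) hInfin.toFinset _ _ hA' hB'
        (FA_inc hBfin m hyB) (KA_inc B A D y)
    rw [i1, i2, mul_assoc]
    apply mul_le_mul_of_nonneg_left _ measureReal_nonneg
    refine le_trans (mul_le_mul_of_nonneg_left ?_ measureReal_nonneg) i3
    exact measureReal_mono (Cn_sub_KA hN hDB (by exact_mod_cast hxA) (by exact_mod_cast h5))
      (measure_ne_top _ _)
  -- the sum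
  have hsum1 : (mu M p).real (Ev M L m x y) ≤
      ∑ A ∈ T, (mu M p).real (E A ∩ FA (M := M) B A m y) := by
    refine le_trans (measureReal_mono (s₂ := ⋃ A ∈ T, (E A ∩ FA (M := M) B A m y)) ?_
      (measure_ne_top _ _)) (measureReal_biUnion_finset_le _ _)
    intro ω hω
    obtain ⟨A, hA, h1, h2⟩ := hEv ω hω
    simp only [mem_iUnion]
    exact ⟨A, hA, h1, h2⟩
  have hsum2 : ∑ A ∈ T, (mu M p).real (E A ∩ (FA (M := M) B A m y ∩ KA (M := M) B A D y)) ≤
      (mu M p).real (Ev M L m x y ∩ Kt M L D x y) := by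
    rw [← measureReal_biUnion_finset]
    · refine measureReal_mono ?_ (measure_ne_top _ _)
      intro ω hω
      simp only [mem_iUnion] at hω
      obtain ⟨A, hA, h1, h2, h3⟩ := hω
      exact ⟨hEvB A hA ω h1 h2, hKt A hA ω h1 h3⟩
    · intro A hA A' hA' hne
      exact Disjoint.mono Set.inter_subset_left Set.inter_subset_left (hdisj A hA A' hA' hne)
    · intro A hA
      exact (hmE A hA).inter ((hmF A).inter (hmK A))
  calc (mu M p).real (Ev M L m x y) * (mu M p).real (Cn M D x y)
      ≤ (∑ A ∈ T, (mu M p).real (E A ∩ FA (M := M) B A m y)) * (mu M p).real (Cn M D x y) :=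
        mul_le_mul_of_nonneg_right hsum1 measureReal_nonneg
    _ = ∑ A ∈ T, (mu M p).real (E A ∩ FA (M := M) B A m y) * (mu M p).real (Cn M D x y) :=
        Finset.sum_mul _ _ _
    _ ≤ ∑ A ∈ T, (mu M p).real (E A ∩ (FA (M := M) B A m y ∩ KA (M := M) B A D y)) :=
        Finset.sum_le_sum hpiece
    _ ≤ _ := hsum2

end

end Pool.Agent.Y448.CB2
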